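import Mathlib

set_option autoImplicit false

namespace Pool.Agent.N357.Pent

open Polynomial

/-- `f ∈ 𝔽₂[x]` is primitive: degree `n ≥ 1`, `f(0) = 1`, irreducible, and the least positive `t`
with `f ∣ x^t + 1` is `2^n - 1`. -/
def IsPrimitivePoly (f : (ZMod 2)[X]) : Prop :=
  1 ≤ f.natDegree ∧ f.coeff 0 = 1 ∧ Irreducible f ∧
    IsLeast {t : ℕ | 0 < t ∧ f ∣ X ^ t + 1} (2 ^ f.natDegree - 1)

section field

variable {K : Type*} [Field K] [Algebra (ZMod 2) K]

theorem two_eq_zero : (2 : K) = 0 := by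
  have h : ((2 : ZMod 2)) = 0 := by decide
  calc (2 : K) = algebraMap (ZMod 2) K 2 := by rw [map_ofNat]
    _ = 0 := by rw [h, map_zero]

theorem add_self (x : K) : x + x = 0 := by
  rw [← two_mul, two_eq_zero, zero_mul]

theorem neg_eq (x : K) : -x = x := by
  have := add_self x
  exact neg_eq_of_add_eq_zero_left this

/-- the degree of a polynomial with root of order `2^n-1` is at least `n` -/
theorem degree_ge {n : ℕ} (hn : 1 ≤ n) (β : K) (hβ : orderOf β = 2 ^ n - 1)
    (g : (ZMod 2)[X]) (hg : g ≠ 0) (hroot : aeval β g = 0) : n ≤ (minpoly (ZMod 2) β).natDegree ∧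
      IsIntegral (ZMod 2) β := by
  have hint : IsIntegral (ZMod 2) β := by
    apply IsAlgebraic.isIntegral
    exact ⟨g, hg, hroot⟩
  refine ⟨?_, hint⟩
  set m := (minpoly (ZMod 2) β).natDegree with hm
  have hmpos : 0 < m := minpoly.natDegree_pos hint
  let L := IntermediateField.adjoin (ZMod 2) {β}
  have : FiniteDimensional (ZMod 2) L := IntermediateField.adjoin.finiteDimensional hint
  have : Finite L := Module.finite_of_finite (ZMod 2)
  have : Fintype L := Fintype.ofFinite L
  have hcard : Fintype.card L = 2 ^ m := by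
    have h1 := Module.card_eq_pow_finrank (K := ZMod 2) (V := L)
    rw [ZMod.card] at h1
    rw [h1, IntermediateField.adjoin.finrank hint]
  have h2 : (IntermediateField.AdjoinSimple.gen (ZMod 2) β : L) ^ (2 ^ m) =
      IntermediateField.AdjoinSimple.gen (ZMod 2) β := by
    rw [← hcard]
    exact FiniteField.pow_card _
  have h3 : β ^ (2 ^ m) = β := by
    have := congrArg (algebraMap L K) h2
    rw [map_pow] at this
    simpa using this
  have hβ0 : β ≠ 0 := by
    rintro rfl
    rw [orderOf_zero] at hβ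
    have : 2 ≤ 2 ^ n := by
      calc 2 = 2 ^ 1 := rfl
        _ ≤ 2 ^ n := Nat.pow_le_pow_right (by norm_num) hn
    omega
  have h4 : β ^ (2 ^ m - 1) = 1 := by
    have : β ^ (2 ^ m - 1) * β = 1 * β := by
      rw [← pow_succ, one_mul, Nat.sub_add_cancel (Nat.one_le_two_pow), h3]
    exact mul_right_cancel₀ hβ0 this
  have h5 := orderOf_dvd_of_pow_eq_one h4
  rw [hβ] at h5
  have h6 : 0 < 2 ^ m - 1 := by
    have : 2 ≤ 2 ^ m := by
      calc 2 = 2 ^ 1 := rfl
        _ ≤ 2 ^ m := Nat.pow_le_pow_right (by norm_num) hmpos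
    omega
  have h7 := Nat.le_of_dvd h6 h5
  by_contra hlt
  push Not at hlt
  have h8 : 2 ^ m < 2 ^ n := Nat.pow_lt_pow_right (by norm_num) hlt
  omega

/-- a monic polynomial of degree `n` with a root of order `2^n - 1` is primitive -/
theorem primitive_of_root {n : ℕ} (hn : 1 ≤ n) (β : K) (hβ : orderOf β = 2 ^ n - 1)
    (g : (ZMod 2)[X]) (hg : g.Monic) (hdeg : g.natDegree = n) (h0 : g.coeff 0 = 1)
    (hroot : aeval β g = 0) : IsPrimitivePoly g := by
  obtain ⟨h1, hint⟩ := degree_ge hn β hβ g hg.ne_zero hroot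
  have hdvd := minpoly.dvd (ZMod 2) β hroot
  have heq : minpoly (ZMod 2) β = g := by
    symm
    apply Polynomial.eq_of_monic_of_dvd_of_natDegree_le (minpoly.monic hint) hg hdvd
    omega
  have hirr : Irreducible g := heq ▸ minpoly.irreducible hint
  have key : ∀ t : ℕ, g ∣ X ^ t + 1 ↔ β ^ t = 1 := by
    intro t
    rw [← heq, minpoly.dvd_iff]
    simp only [map_add, map_pow, aeval_X, map_one]
    constructor
    · intro h
      have := add_self (1 : K)
      linear_combination h - this
    · intro h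
      rw [h]; exact add_self 1
  refine ⟨by omega, h0, hirr, ?_⟩
  rw [hdeg]
  have hpos : 0 < 2 ^ n - 1 := by
    have : 2 ≤ 2 ^ n := by
      calc 2 = 2 ^ 1 := rfl
        _ ≤ 2 ^ n := Nat.pow_le_pow_right (by norm_num) hn
    omega
  refine ⟨⟨hpos, ?_⟩, ?_⟩
  · rw [key, ← hβ, pow_orderOf_eq_one]
  · rintro t ⟨ht, hdt⟩
    rw [key] at hdt
    rw [← hβ]
    exact orderOf_le_of_pow_eq_one ht hdt

end field

/-- a primitive polynomial has a root of order `2^n - 1` in a field extension -/
theorem exists_root (f : (ZMod 2)[X]) (hf : IsPrimitivePoly f) :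
    ∃ (K : Type) (_ : Field K) (_ : Algebra (ZMod 2) K) (α : K),
      aeval α f = 0 ∧ orderOf α = 2 ^ f.natDegree - 1 := by
  obtain ⟨h1, h0, hirr, hl⟩ := hf
  have : Fact (Irreducible f) := ⟨hirr⟩
  refine ⟨AdjoinRoot f, inferInstance, inferInstance, AdjoinRoot.root f, ?_, ?_⟩
  · rw [aeval_def, AdjoinRoot.algebraMap_eq, AdjoinRoot.eval₂_root]
  · have key : ∀ t : ℕ, f ∣ X ^ t + 1 ↔ (AdjoinRoot.root f) ^ t = 1 := by
      intro t
      rw [← AdjoinRoot.mk_eq_zero, map_add, map_pow, AdjoinRoot.mk_X, map_one]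
      constructor
      · intro h
        have := add_self (1 : AdjoinRoot f)
        linear_combination h - this
      · intro h
        rw [h]; exact add_self 1
    obtain ⟨⟨hpos, hd⟩, hmin⟩ := hl
    rw [key] at hd
    apply le_antisymm
    · exact orderOf_le_of_pow_eq_one hpos hd
    · apply hmin
      refine ⟨orderOf_pos_iff.2 (isOfFinOrder_iff_pow_eq_one.2 ⟨_, hpos, hd⟩), ?_⟩
      rw [key, pow_orderOf_eq_one]

end Pool.Agent.N357.Pent
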