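import Mathlib
import Pool.Agent.N357.Pent.Basic

set_option autoImplicit false

namespace Pool.Agent.N357.Pent

open Polynomial

/-- a trinomial of degree `n` -/
def IsTrinomial (n : ℕ) (f : (ZMod 2)[X]) : Prop :=
  ∃ a : ℕ, 0 < a ∧ a < n ∧ f = X ^ n + X ^ a + 1

/-- a pentanomial of degree `n` -/
def IsPentanomial (n : ℕ) (f : (ZMod 2)[X]) : Prop :=
  ∃ a₁ a₂ a₃ : ℕ, 0 < a₁ ∧ a₁ < a₂ ∧ a₂ < a₃ ∧ a₃ < n ∧ f = X ^ n + X ^ a₃ + X ^ a₂ + X ^ a₁ + 1

/-- there is a primitive pentanomial of degree `n` -/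
def HasPent (n : ℕ) : Prop := ∃ f, IsPentanomial n f ∧ IsPrimitivePoly f

theorem natDegree_lt {n : ℕ} {p q : (ZMod 2)[X]} (hp : p.natDegree < n) (hq : q.natDegree < n) :
    (p + q).natDegree < n :=
  lt_of_le_of_lt (natDegree_add_le p q) (max_lt hp hq)

theorem monic_deg {n : ℕ} (p : (ZMod 2)[X]) (hn : 0 < n) (hp : p.natDegree < n) :
    (X ^ n + p).Monic ∧ (X ^ n + p).natDegree = n := by
  have hd : p.degree < n := by
    rcases eq_or_ne p 0 with rfl | h0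
    · rw [degree_zero]; exact WithBot.bot_lt_coe n
    · rwa [← natDegree_lt_iff_degree_lt h0]
  refine ⟨monic_X_pow_add hd, ?_⟩
  rw [natDegree_add_eq_left_of_natDegree_lt (by rw [natDegree_X_pow]; exact hp), natDegree_X_pow]

section field

variable {K : Type*} [Field K] [Algebra (ZMod 2) K]

theorem pent_sorted {n u v w : ℕ} (hu : 0 < u) (huv : u < v) (hvw : v < w) (hwn : w < n)
    (β : K) (hβ : orderOf β = 2 ^ n - 1) (h : β ^ n + β ^ w + β ^ v + β ^ u + 1 = 0) :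
    HasPent n := by
  set p : (ZMod 2)[X] := X ^ w + (X ^ v + (X ^ u + 1)) with hp
  have hpd : p.natDegree < n := by
    rw [hp]
    refine natDegree_lt (by rw [natDegree_X_pow]; omega) (natDegree_lt (by rw [natDegree_X_pow]; omega)
      (natDegree_lt (by rw [natDegree_X_pow]; omega) (by rw [natDegree_one]; omega)))
  obtain ⟨hm, hd⟩ := monic_deg p (by omega) hpd
  have e : (X ^ n + X ^ w + X ^ v + X ^ u + 1 : (ZMod 2)[X]) = X ^ n + p := by rw [hp]; ring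
  refine ⟨X ^ n + X ^ w + X ^ v + X ^ u + 1, ⟨u, v, w, hu, huv, hvw, hwn, rfl⟩, ?_⟩
  rw [e]
  refine primitive_of_root (by omega) β hβ _ hm hd ?_ ?_
  · rw [hp]
    simp only [coeff_add, coeff_X_pow, coeff_one]
    rw [if_neg (by omega), if_neg (by omega), if_neg (by omega), if_neg (by omega)]
    simp
  · rw [hp]
    simp only [map_add, map_pow, aeval_X, map_one]
    linear_combination h

theorem pent_of {n u v w : ℕ} (hu : 0 < u) (hv : 0 < v) (hw : 0 < w) (hun : u < n) (hvn : v < n)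
    (hwn : w < n) (huv : u ≠ v) (huw : u ≠ w) (hvw : v ≠ w)
    (β : K) (hβ : orderOf β = 2 ^ n - 1) (h : β ^ n + β ^ u + β ^ v + β ^ w + 1 = 0) :
    HasPent n := by
  rcases lt_or_gt_of_ne huv with a | a <;> rcases lt_or_gt_of_ne huw with b | b <;>
    rcases lt_or_gt_of_ne hvw with c | c
  · exact pent_sorted hu a c hwn β hβ (by linear_combination h)
  · exact pent_sorted hu b c hvn β hβ (by linear_combination h)
  · omega
  · exact pent_sorted hw b a hvn β hβ (by linear_combination h)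
  · exact pent_sorted hv a b hwn β hβ (by linear_combination h)
  · omega
  · exact pent_sorted hv c b hun β hβ (by linear_combination h)
  · exact pent_sorted hw c a hun β hβ (by linear_combination h)

omit [Algebra (ZMod 2) K] in
/-- the order is large -/
theorem order_le {n l M : ℕ} (α : K) (hα : orderOf α = 2 ^ n - 1) (hlM : 0 < l * M)
    (h : (α ^ l) ^ M = 1) : 2 ^ n - 1 ≤ l * M := by
  rw [← pow_mul] at h
  rw [← hα]
  exact orderOf_le_of_pow_eq_one hlM h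

omit [Algebra (ZMod 2) K] in
theorem ord3 (C : K) (h : C ^ 2 + C + 1 = 0) : C ^ 3 = 1 := by
  linear_combination (C - 1) * h

theorem ord7a (C : K) (h : C ^ 3 + C + 1 = 0) : C ^ 7 = 1 := by
  have two := two_eq_zero (K := K)
  linear_combination (C^0 + C^1 + C^2 + C^4) * h - (C^0 + C^1 + C^2 + C^3 + C^4 + C^5) * two

theorem ord7b (C : K) (h : C ^ 3 + C ^ 2 + 1 = 0) : C ^ 7 = 1 := by
  have two := two_eq_zero (K := K)
  linear_combination (C^0 + C^2 + C^3 + C^4) * h - (C^0 + C^2 + C^3 + C^4 + C^5 + C^6) * two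

theorem ord15a (C : K) (h : C ^ 4 + C + 1 = 0) : C ^ 15 = 1 := by
  have two := two_eq_zero (K := K)
  linear_combination (C^0 + C^1 + C^2 + C^3 + C^5 + C^7 + C^8 + C^11) * h - (C^0 + C^1 + C^2 + C^3 + C^4 + C^5 + C^6 + C^7 + C^8 + C^9 + C^11 + C^12) * two

theorem ord15b (C : K) (h : C ^ 4 + C ^ 3 + 1 = 0) : C ^ 15 = 1 := by
  have two := two_eq_zero (K := K)
  linear_combination (C^0 + C^3 + C^4 + C^6 + C^8 + C^9 + C^10 + C^11) * h - (C^0 + C^3 + C^4 + C^6 + C^7 + C^8 + C^9 + C^10 + C^11 + C^12 + C^13 + C^14) * two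

theorem mul_lt_two_pow (l : ℕ) : l < 2 ^ l := Nat.lt_two_pow_self

/-- `n ≠ 2k` -/
theorem ne_two {n k : ℕ} (hn : 6 ≤ n) (α : K) (hα : orderOf α = 2 ^ n - 1)
    (h : α ^ n + α ^ k + 1 = 0) : n ≠ 2 * k := by
  rintro rfl
  have h1 : (α ^ k) ^ 2 + α ^ k + 1 = 0 := by rw [← pow_mul, mul_comm k 2]; exact h
  have h2 := order_le α hα (by omega) (ord3 _ h1)
  have h3 : 2 ^ (2 * k) = 2 ^ k * 2 ^ k := by rw [two_mul, pow_add]
  have h4 := mul_lt_two_pow k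
  have h5 : 8 ≤ 2 ^ k := by
    calc 8 = 2 ^ 3 := rfl
      _ ≤ 2 ^ k := Nat.pow_le_pow_right (by norm_num) (by omega)
  have : 8 * 2 ^ k ≤ 2 ^ k * 2 ^ k := Nat.mul_le_mul_right _ h5
  omega

theorem big3 (l : ℕ) (hl : 2 ≤ l) : ¬ 2 ^ (3 * l) - 1 ≤ l * 7 := by
  have h3 : 2 ^ (3 * l) = 2 ^ (2 * l) * 2 ^ l := by rw [← pow_add]; congr 1; ring
  have h4 := mul_lt_two_pow l
  have h5 : 16 ≤ 2 ^ (2 * l) := by
    calc 16 = 2 ^ 4 := rfl
      _ ≤ 2 ^ (2 * l) := Nat.pow_le_pow_right (by norm_num) (by omega)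
  have : 16 * 2 ^ l ≤ 2 ^ (2 * l) * 2 ^ l := Nat.mul_le_mul_right _ h5
  omega

theorem big4 (l : ℕ) (hl : 2 ≤ l) : ¬ 2 ^ (4 * l) - 1 ≤ l * 15 := by
  have h3 : 2 ^ (4 * l) = 2 ^ (3 * l) * 2 ^ l := by rw [← pow_add]; congr 1; ring
  have h4 := mul_lt_two_pow l
  have h5 : 64 ≤ 2 ^ (3 * l) := by
    calc 64 = 2 ^ 6 := rfl
      _ ≤ 2 ^ (3 * l) := Nat.pow_le_pow_right (by norm_num) (by omega)
  have : 64 * 2 ^ l ≤ 2 ^ (3 * l) * 2 ^ l := Nat.mul_le_mul_right _ h5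
  omega

/-- `n ≠ 3k` -/
theorem ne_three {n k : ℕ} (hn : 6 ≤ n) (α : K) (hα : orderOf α = 2 ^ n - 1)
    (h : α ^ n + α ^ k + 1 = 0) : n ≠ 3 * k := by
  rintro rfl
  have h1 : (α ^ k) ^ 3 + α ^ k + 1 = 0 := by rw [← pow_mul, mul_comm k 3]; exact h
  exact big3 k (by omega) (order_le α hα (by omega) (ord7a _ h1))

/-- `2n ≠ 3k` -/
theorem ne_three' {n k : ℕ} (hn : 6 ≤ n) (α : K) (hα : orderOf α = 2 ^ n - 1)
    (h : α ^ n + α ^ k + 1 = 0) : 2 * n ≠ 3 * k := by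
  intro e
  obtain ⟨l, rfl⟩ : ∃ l, n = 3 * l := ⟨n / 3, by omega⟩
  obtain rfl : k = 2 * l := by omega
  have h1 : (α ^ l) ^ 3 + (α ^ l) ^ 2 + 1 = 0 := by
    rw [← pow_mul, ← pow_mul, mul_comm l 3, mul_comm l 2]; exact h
  exact big3 l (by omega) (order_le α hα (by omega) (ord7b _ h1))

/-- `n ≠ 4k` -/
theorem ne_four {n k : ℕ} (hn : 6 ≤ n) (α : K) (hα : orderOf α = 2 ^ n - 1)
    (h : α ^ n + α ^ k + 1 = 0) : n ≠ 4 * k := by
  rintro rfl
  have h1 : (α ^ k) ^ 4 + α ^ k + 1 = 0 := by rw [← pow_mul, mul_comm k 4]; exact h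
  exact big4 k (by omega) (order_le α hα (by omega) (ord15a _ h1))

/-- `3n ≠ 4k` -/
theorem ne_four' {n k : ℕ} (hn : 6 ≤ n) (α : K) (hα : orderOf α = 2 ^ n - 1)
    (h : α ^ n + α ^ k + 1 = 0) : 3 * n ≠ 4 * k := by
  intro e
  obtain ⟨l, rfl⟩ : ∃ l, n = 4 * l := ⟨n / 4, by omega⟩
  obtain rfl : k = 3 * l := by omega
  have h1 : (α ^ l) ^ 4 + (α ^ l) ^ 3 + 1 = 0 := by
    rw [← pow_mul, ← pow_mul, mul_comm l 4, mul_comm l 3]; exact h
  exact big4 l (by omega) (order_le α hα (by omega) (ord15b _ h1))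

end field

end Pool.Agent.N357.Pent
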