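import Mathlib
import Pool.Agent.N357.Pent.Cases

set_option autoImplicit false

namespace Pool.Agent.N357.Pent

open Polynomial

section field

variable {K : Type*} [Field K] [Algebra (ZMod 2) K]

theorem frob (r : ℕ) (x y : K) : (x + y) ^ (2 ^ r) = x ^ (2 ^ r) + y ^ (2 ^ r) := by
  have : CharP K 2 := charP_of_injective_algebraMap (algebraMap (ZMod 2) K).injective 2
  have : Fact (Nat.Prime 2) := ⟨Nat.prime_two⟩
  exact add_pow_char_pow x y 2 r

omit [Algebra (ZMod 2) K] in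
theorem order_pow {n j : ℕ} (α : K) (hα : orderOf α = 2 ^ n - 1) (hc : Nat.Coprime j (2 ^ n - 1)) :
    orderOf (α ^ j) = 2 ^ n - 1 := by
  rw [← hα]
  exact Nat.Coprime.orderOf_pow (by rw [hα]; exact hc.symm)

/-- the case `j ∣ k`, `j = 2^r + 1` -/
theorem fam_k {n k r l : ℕ} (hk : 0 < k) (hkn : k < n) (hr : 1 ≤ r)
    (hl : k = (2 ^ r + 1) * l) (α : K) (hα : orderOf α = 2 ^ n - 1)
    (hc : Nat.Coprime (2 ^ r + 1) (2 ^ n - 1)) (h : α ^ n + α ^ k + 1 = 0) : HasPent n := by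
  have two := two_eq_zero (K := K)
  have h2r : 2 ≤ 2 ^ r := by
    calc 2 = 2 ^ 1 := rfl
      _ ≤ 2 ^ r := Nat.pow_le_pow_right (by norm_num) hr
  have hl0 : 0 < l := by
    rcases Nat.eq_zero_or_pos l with rfl | h0
    · simp at hl; omega
    · exact h0
  have e1 : 2 ^ r * l + l = k := by rw [hl]; ring
  have e2 : 2 * l ≤ 2 ^ r * l := Nat.mul_le_mul_right _ h2r
  have hA : α ^ n = 1 + α ^ k := by linear_combination h - (α ^ k + 1) * two
  refine pent_of (u := k) (v := 2 ^ r * l) (w := l) hk (by omega) hl0 hkn (by omega) (by omega)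
    (by omega) (by omega) (by omega) (α ^ (2 ^ r + 1)) (order_pow α hα hc) ?_
  have b1 : (α ^ (2 ^ r + 1)) ^ n = (1 + α ^ k) ^ (2 ^ r) * (1 + α ^ k) := by
    rw [← hA, ← pow_succ, ← pow_mul, ← pow_mul, mul_comm]
  have b2 : (α ^ (2 ^ r + 1)) ^ k = (α ^ k) ^ (2 ^ r) * α ^ k := by
    rw [← pow_succ, ← pow_mul, ← pow_mul, mul_comm]
  have b3 : (α ^ (2 ^ r + 1)) ^ (2 ^ r * l) = (α ^ k) ^ (2 ^ r) := by
    rw [← pow_mul, ← pow_mul, hl]; congr 1; ring
  have b4 : (α ^ (2 ^ r + 1)) ^ l = α ^ k := by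
    rw [← pow_mul, hl]
  rw [b1, b2, b3, b4, frob, one_pow]
  linear_combination ((α ^ k) ^ (2 ^ r) * α ^ k + (α ^ k) ^ (2 ^ r) + α ^ k + 1) * two

/-- the case `j ∣ n - k`, `j = 2^r + 1` -/
theorem fam_nk {n k r l : ℕ} (hk : 0 < k) (hkn : k < n) (hr : 1 ≤ r)
    (hl : n = k + (2 ^ r + 1) * l) (α : K) (hα : orderOf α = 2 ^ n - 1)
    (hc : Nat.Coprime (2 ^ r + 1) (2 ^ n - 1)) (h : α ^ n + α ^ k + 1 = 0) : HasPent n := by
  have two := two_eq_zero (K := K)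
  have h2r : 2 ≤ 2 ^ r := by
    calc 2 = 2 ^ 1 := rfl
      _ ≤ 2 ^ r := Nat.pow_le_pow_right (by norm_num) hr
  have hl0 : 0 < l := by
    rcases Nat.eq_zero_or_pos l with rfl | h0
    · simp at hl; omega
    · exact h0
  have e1 : k + (2 ^ r * l + l) = n := by rw [hl]; ring
  have e2 : 2 * l ≤ 2 ^ r * l := Nat.mul_le_mul_right _ h2r
  have hAB : α ^ n + α ^ k = 1 := by linear_combination h - two
  refine pent_of (u := k + 2 ^ r * l) (v := k + l) (w := k) (by omega) (by omega) hk (by omega)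
    (by omega) hkn (by omega) (by omega) (by omega) (α ^ (2 ^ r + 1)) (order_pow α hα hc) ?_
  have b1 : (α ^ (2 ^ r + 1)) ^ n = (α ^ n) ^ (2 ^ r) * α ^ n := by
    rw [← pow_succ, ← pow_mul, ← pow_mul, mul_comm]
  have b2 : (α ^ (2 ^ r + 1)) ^ (k + 2 ^ r * l) = (α ^ n) ^ (2 ^ r) * α ^ k := by
    rw [← pow_mul, ← pow_mul, ← pow_add, hl]; congr 1; ring
  have b3 : (α ^ (2 ^ r + 1)) ^ (k + l) = (α ^ k) ^ (2 ^ r) * α ^ n := by
    rw [← pow_mul, ← pow_mul, ← pow_add, hl]; congr 1; ring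
  have b4 : (α ^ (2 ^ r + 1)) ^ k = (α ^ k) ^ (2 ^ r) * α ^ k := by
    rw [← pow_succ, ← pow_mul, ← pow_mul, mul_comm]
  rw [b1, b2, b3, b4]
  have h1 : (α ^ n) ^ (2 ^ r) + (α ^ k) ^ (2 ^ r) = 1 := by rw [← frob, hAB, one_pow]
  linear_combination (α ^ n + α ^ k) * h1 + hAB + two

theorem fixed_a (r : ℕ) (B : K) (h : B ^ (2 ^ r) * B + B + 1 = 0) : B ^ (2 ^ (3 * r)) = B := by
  have two := two_eq_zero (K := K)
  set x := B ^ (2 ^ r) with hx
  set y := x ^ (2 ^ r) with hy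
  set z := y ^ (2 ^ r) with hz
  have hz' : B ^ (2 ^ (3 * r)) = z := by
    rw [hz, hy, hx, ← pow_mul, ← pow_mul, ← pow_add, ← pow_add]; congr 2; ring
  have h1 : y * x + x + 1 = 0 := by
    have := congrArg (fun t => t ^ (2 ^ r)) h
    simp only [frob, mul_pow, one_pow, ← hx, ← hy] at this
    rw [this, zero_pow (by positivity)]
  have h2 : z * y + y + 1 = 0 := by
    have := congrArg (fun t => t ^ (2 ^ r)) h1
    simp only [frob, mul_pow, one_pow, ← hy, ← hz] at this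
    rw [this, zero_pow (by positivity)]
  -- y (B + 1) = 1
  have h3 : y * (B + 1) = 1 := by
    linear_combination B * h1 - (y + 1) * h + (y * B + y) * two
  rw [hz']
  -- z * y + y + 1 = 0, times (B+1): z + 1 + B + 1 = 0
  linear_combination (B + 1) * h2 - (z + 1) * h3 - (1 + B) * two

theorem fixed_b (r : ℕ) (C : K) (h : C ^ (2 ^ r) * C + C ^ (2 ^ r) + 1 = 0) :
    C ^ (2 ^ (3 * r)) = C := by
  have two := two_eq_zero (K := K)
  set x := C ^ (2 ^ r) with hx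
  set y := x ^ (2 ^ r) with hy
  set z := y ^ (2 ^ r) with hz
  have hz' : C ^ (2 ^ (3 * r)) = z := by
    rw [hz, hy, hx, ← pow_mul, ← pow_mul, ← pow_add, ← pow_add]; congr 2; ring
  have h1 : y * x + y + 1 = 0 := by
    have := congrArg (fun t => t ^ (2 ^ r)) h
    simp only [frob, mul_pow, one_pow, ← hx, ← hy] at this
    rw [this, zero_pow (by positivity)]
  have h2 : z * y + z + 1 = 0 := by
    have := congrArg (fun t => t ^ (2 ^ r)) h1
    simp only [frob, mul_pow, one_pow, ← hy, ← hz] at this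
    rw [this, zero_pow (by positivity)]
  rw [hz']
  -- x (C+1) = 1, y (x+1) = 1, z (y+1) = 1
  have a1 : x * (C + 1) = 1 := by linear_combination h - two
  have a2 : y * (x + 1) = 1 := by linear_combination h1 - two
  have a3 : z * (y + 1) = 1 := by linear_combination h2 - two
  -- y * C = C + 1
  have a4 : y * C = C + 1 := by
    linear_combination (C + 1) * a2 - y * a1 - y * two
  linear_combination C * a3 - z * a4 - C * z * two

theorem three_le (r : ℕ) (hr : 2 ≤ r) : 3 * r ≤ 2 ^ r + 2 := by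
  induction r, hr using Nat.le_induction with
  | base => norm_num
  | succ r hr ih =>
    have h4 : 4 ≤ 2 ^ r := by
      calc 4 = 2 ^ 2 := rfl
        _ ≤ 2 ^ r := Nat.pow_le_pow_right (by norm_num) hr
    rw [pow_succ]; omega

theorem bigr (r l : ℕ) (hr : 2 ≤ r) (hl : 2 ≤ l) :
    ¬ 2 ^ ((2 ^ r + 1) * l) - 1 ≤ l * (2 ^ (3 * r) - 1) := by
  have h1 := three_le r hr
  have h2 : 3 * r + l ≤ (2 ^ r + 1) * l := by
    have h3 : (3 * r - 1) * l ≤ (2 ^ r + 1) * l := Nat.mul_le_mul_right _ (by omega)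
    have h4 : (3 * r - 2) * 2 ≤ (3 * r - 2) * l := Nat.mul_le_mul_left _ hl
    have h5 : (3 * r - 1) * l = (3 * r - 2) * l + l := by
      obtain ⟨q, hq⟩ : ∃ q, 3 * r = q + 2 := ⟨3 * r - 2, by omega⟩
      rw [hq, show q + 2 - 1 = q + 1 by omega, show q + 2 - 2 = q by omega]; ring
    omega
  have h6 : 2 ^ (3 * r + l) ≤ 2 ^ ((2 ^ r + 1) * l) := Nat.pow_le_pow_right (by norm_num) h2
  have h7 : (l + 1) * 2 ^ (3 * r) ≤ 2 ^ (3 * r + l) := by
    rw [pow_add, mul_comm]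
    exact Nat.mul_le_mul_left _ (mul_lt_two_pow l)
  have h8 : 1 ≤ 2 ^ (3 * r) := Nat.one_le_two_pow
  have h9 : l * (2 ^ (3 * r) - 1) + l = l * 2 ^ (3 * r) := by
    obtain ⟨q, hq⟩ : ∃ q, 2 ^ (3 * r) = q + 1 := ⟨2 ^ (3 * r) - 1, by omega⟩
    rw [hq, Nat.add_sub_cancel]; ring
  have h10 : (l + 1) * 2 ^ (3 * r) = l * 2 ^ (3 * r) + 2 ^ (3 * r) := by ring
  omega

/-- a power of `α` of small exponent is not fixed by `2^{3r}` -/
theorem not_fixed {n r l : ℕ} (hr : 2 ≤ r) (hl : 2 ≤ l) (hn : n = (2 ^ r + 1) * l)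
    (α : K) (hα0 : α ≠ 0) (hα : orderOf α = 2 ^ n - 1) (h : (α ^ l) ^ (2 ^ (3 * r)) = α ^ l) :
    False := by
  have h1 : (α ^ l) ^ (2 ^ (3 * r) - 1) = 1 := by
    have h2 : (α ^ l) ^ (2 ^ (3 * r) - 1) * α ^ l = 1 * α ^ l := by
      rw [← pow_succ, one_mul, Nat.sub_add_cancel Nat.one_le_two_pow, h]
    exact mul_right_cancel₀ (pow_ne_zero _ hα0) h2
  have h8 : 2 ≤ 2 ^ (3 * r) := by
    calc 2 = 2 ^ 1 := rfl
      _ ≤ 2 ^ (3 * r) := Nat.pow_le_pow_right (by norm_num) (by omega)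
  have h3 := order_le α hα (Nat.mul_pos (by omega) (by omega)) h1
  rw [hn] at h3
  exact bigr r l hr hl h3

theorem ne_zero_of_order {n : ℕ} (hn : 1 ≤ n) (α : K) (hα : orderOf α = 2 ^ n - 1) : α ≠ 0 := by
  rintro rfl
  rw [orderOf_zero] at hα
  have : 2 ≤ 2 ^ n := by
    calc 2 = 2 ^ 1 := rfl
      _ ≤ 2 ^ n := Nat.pow_le_pow_right (by norm_num) hn
  omega

/-- the case `j ∣ n`, `j = 2^r + 1` -/
theorem fam_n {n k r l : ℕ} (hev : n % 2 = 0) (hk : 0 < k) (hkn : k < n) (hr : 2 ≤ r)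
    (hl : n = (2 ^ r + 1) * l) (α : K) (hα : orderOf α = 2 ^ n - 1)
    (hc : Nat.Coprime (2 ^ r + 1) (2 ^ n - 1)) (h : α ^ n + α ^ k + 1 = 0) : HasPent n := by
  have two := two_eq_zero (K := K)
  have h2r : 4 ≤ 2 ^ r := by
    calc 4 = 2 ^ 2 := rfl
      _ ≤ 2 ^ r := Nat.pow_le_pow_right (by norm_num) hr
  have hl2 : 2 ≤ l := by
    have hodd : (2 ^ r + 1) % 2 = 1 := by
      have : 2 ^ r % 2 = 0 := by
        obtain ⟨q, rfl⟩ : ∃ q, r = q + 1 := ⟨r - 1, by omega⟩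
        rw [pow_succ]; omega
      omega
    rcases l with _ | _ | l
    · simp at hl; omega
    · rw [zero_add, mul_one] at hl; omega
    · omega
  have hα0 := ne_zero_of_order (by omega) α hα
  have e1 : 2 ^ r * l + l = n := by rw [hl]; ring
  have e2 : 4 * l ≤ 2 ^ r * l := Nat.mul_le_mul_right _ h2r
  have hB : α ^ k = 1 + α ^ n := by linear_combination h - (α ^ n + 1) * two
  have hn1 : α ^ n = (α ^ l) ^ (2 ^ r) * α ^ l := by
    rw [← pow_succ, ← pow_mul, mul_comm l, ← hl]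
  have kl : k ≠ l := by
    rintro rfl
    refine not_fixed hr hl2 hl α hα0 hα (fixed_a r _ ?_)
    rw [← hn1]; exact h
  have kl2 : k ≠ 2 ^ r * l := by
    intro hk2
    refine not_fixed hr hl2 hl α hα0 hα (fixed_b r _ ?_)
    rw [← hn1, ← pow_mul, mul_comm l, ← hk2]; exact h
  refine pent_of (u := k) (v := 2 ^ r * l) (w := l) hk (by omega) (by omega) hkn (by omega)
    (by omega) kl2 kl (by omega) (α ^ (2 ^ r + 1)) (order_pow α hα hc) ?_
  have b1 : (α ^ (2 ^ r + 1)) ^ n = (α ^ n) ^ (2 ^ r) * α ^ n := by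
    rw [← pow_succ, ← pow_mul, ← pow_mul, mul_comm]
  have b2 : (α ^ (2 ^ r + 1)) ^ k = (1 + α ^ n) ^ (2 ^ r) * (1 + α ^ n) := by
    rw [← hB, ← pow_succ, ← pow_mul, ← pow_mul, mul_comm]
  have b3 : (α ^ (2 ^ r + 1)) ^ (2 ^ r * l) = (α ^ n) ^ (2 ^ r) := by
    rw [← pow_mul, ← pow_mul]; congr 1; rw [hl]; ring
  have b4 : (α ^ (2 ^ r + 1)) ^ l = α ^ n := by
    rw [← pow_mul, ← hl]
  rw [b1, b2, b3, b4, frob, one_pow]
  linear_combination ((α ^ n) ^ (2 ^ r) * α ^ n + (α ^ n) ^ (2 ^ r) + α ^ n + 1) * two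

end field

end Pool.Agent.N357.Pent
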