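import Mathlib
import Pool.Agent.N357.Pent.Fam

set_option autoImplicit false

namespace Pool.Agent.N357.Pent

open Polynomial

theorem mod5 (n k : ℕ) (c1 : n % 5 ≠ 0) (c2 : k % 5 ≠ 0) (c3 : n % 5 ≠ k % 5)
    (c4 : (n + 3 * k) % 5 ≠ 0) (c5 : (3 * n + k) % 5 ≠ 0) : (n + k) % 5 = 0 := by
  obtain ⟨a, r, hr, rfl⟩ : ∃ a r, r < 5 ∧ n = 5 * a + r := ⟨n / 5, n % 5, by omega, by omega⟩
  obtain ⟨b, s, hs, rfl⟩ : ∃ b s, s < 5 ∧ k = 5 * b + s := ⟨k / 5, k % 5, by omega, by omega⟩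
  interval_cases r <;> interval_cases s <;> omega

theorem mod7 (n k : ℕ) (c1 : n % 7 ≠ 0) (c2 : k % 7 ≠ 0) (c3 : n % 7 ≠ k % 7)
    (d1 : (n + 5 * k) % 7 ≠ 0) (d2 : (5 * n + k) % 7 ≠ 0) (d3 : (n + k) % 7 ≠ 0)
    (d4 : (n + 4 * k) % 7 ≠ 0) : (n + 2 * k) % 7 = 0 := by
  have key : ∀ r : Fin 7, ∀ s : Fin 7, r.1 = 0 ∨ s.1 = 0 ∨ r.1 = s.1 ∨ (r.1 + 5 * s.1) % 7 = 0 ∨
      (5 * r.1 + s.1) % 7 = 0 ∨ (r.1 + s.1) % 7 = 0 ∨ (r.1 + 4 * s.1) % 7 = 0 ∨
      (r.1 + 2 * s.1) % 7 = 0 := by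
    decide
  have := key ⟨n % 7, by omega⟩ ⟨k % 7, by omega⟩
  simp only at this
  omega

section field

variable {K : Type*} [Field K] [Algebra (ZMod 2) K]

omit [Algebra (ZMod 2) K] in
/-- monomials in `α^n`, `α^k` as powers of `β = α^j` -/
theorem mon {j u : ℕ} (n k a b : ℕ) (α : K) (h : j * u = a * n + b * k) :
    (α ^ j) ^ u = (α ^ n) ^ a * (α ^ k) ^ b := by
  rw [← pow_mul, ← pow_mul, ← pow_mul, ← pow_add, h, mul_comm a, mul_comm b]

theorem five_B {n k u v : ℕ} (hn : 6 ≤ n) (hk : 0 < k) (hkn : k < n) (hu : 5 * u = n + 3 * k)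
    (hv : 5 * v = 2 * n + k) (α : K) (hα : orderOf α = 2 ^ n - 1)
    (hc : Nat.Coprime 5 (2 ^ n - 1)) (h : α ^ n + α ^ k + 1 = 0) : HasPent n := by
  have two := two_eq_zero (K := K)
  have n2 := ne_two hn α hα h
  refine pent_of (u := k) (v := u) (w := v) hk (by omega) (by omega) hkn (by omega) (by omega)
    (by omega) (by omega) (by omega) (α ^ 5) (order_pow α hα hc) ?_
  rw [mon n k 5 0 α (by ring : 5 * n = 5 * n + 0 * k), mon n k 0 5 α (by ring : 5 * k = 0 * n + 5 * k),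
    mon n k 1 3 α (by omega : 5 * u = 1 * n + 3 * k), mon n k 2 1 α (by omega : 5 * v = 2 * n + 1 * k)]
  have hA : α ^ n = α ^ k + 1 := by linear_combination h - (α ^ k + 1) * two
  rw [hA]
  generalize α ^ k = B
  linear_combination (1*B^0 + 3*B^1 + 6*B^2 + 6*B^3 + 3*B^4 + 1*B^5) * two

theorem five_A {n k u v : ℕ} (hn : 6 ≤ n) (hk : 0 < k) (hkn : k < n) (hu : 5 * u = 3 * n + k)
    (hv : 5 * v = n + 2 * k) (α : K) (hα : orderOf α = 2 ^ n - 1)
    (hc : Nat.Coprime 5 (2 ^ n - 1)) (h : α ^ n + α ^ k + 1 = 0) : HasPent n := by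
  have two := two_eq_zero (K := K)
  have n2 := ne_four' hn α hα h
  have n3 := ne_three hn α hα h
  refine pent_of (u := k) (v := u) (w := v) hk (by omega) (by omega) hkn (by omega) (by omega)
    (by omega) (by omega) (by omega) (α ^ 5) (order_pow α hα hc) ?_
  rw [mon n k 5 0 α (by ring : 5 * n = 5 * n + 0 * k), mon n k 0 5 α (by ring : 5 * k = 0 * n + 5 * k),
    mon n k 3 1 α (by omega : 5 * u = 3 * n + 1 * k), mon n k 1 2 α (by omega : 5 * v = 1 * n + 2 * k)]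
  have hA : α ^ n = α ^ k + 1 := by linear_combination h - (α ^ k + 1) * two
  rw [hA]
  generalize α ^ k = B
  linear_combination (1*B^0 + 3*B^1 + 7*B^2 + 7*B^3 + 3*B^4 + 1*B^5) * two

theorem five_C {n k u v : ℕ} (hn : 6 ≤ n) (hk : 0 < k) (hkn : k < n) (hu : 5 * u = n + k)
    (hv : 5 * v = 2 * n + 2 * k) (α : K) (hα : orderOf α = 2 ^ n - 1)
    (hc : Nat.Coprime 5 (2 ^ n - 1)) (h : α ^ n + α ^ k + 1 = 0) : HasPent n := by
  have two := two_eq_zero (K := K)
  have n2 := ne_four hn α hα h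
  have n3 := ne_three' hn α hα h
  refine pent_of (u := k) (v := u) (w := v) hk (by omega) (by omega) hkn (by omega) (by omega)
    (by omega) (by omega) (by omega) (α ^ 5) (order_pow α hα hc) ?_
  rw [mon n k 5 0 α (by ring : 5 * n = 5 * n + 0 * k), mon n k 0 5 α (by ring : 5 * k = 0 * n + 5 * k),
    mon n k 1 1 α (by omega : 5 * u = 1 * n + 1 * k), mon n k 2 2 α (by omega : 5 * v = 2 * n + 2 * k)]
  have hA : α ^ n = α ^ k + 1 := by linear_combination h - (α ^ k + 1) * two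
  rw [hA]
  generalize α ^ k = B
  linear_combination (1*B^0 + 3*B^1 + 6*B^2 + 6*B^3 + 3*B^4 + 1*B^5) * two

/-- `5 ∣ n` and `5 ∣ k` is impossible -/
theorem five_zero {n k : ℕ} (hk : 0 < k) (hkn : k < n) (h5n : n % 5 = 0) (h5k : k % 5 = 0)
    (α : K) (hα : orderOf α = 2 ^ n - 1)
    (hc : Nat.Coprime 5 (2 ^ n - 1)) (h : α ^ n + α ^ k + 1 = 0) : False := by
  obtain ⟨a, rfl⟩ : ∃ a, n = 5 * a := ⟨n / 5, by omega⟩
  obtain ⟨b, rfl⟩ : ∃ b, k = 5 * b := ⟨k / 5, by omega⟩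
  have hp : (X ^ b + 1 : (ZMod 2)[X]).natDegree < a :=
    natDegree_lt (by rw [natDegree_X_pow]; omega) (by rw [natDegree_one]; omega)
  obtain ⟨hm, hd⟩ := monic_deg (X ^ b + 1) (by omega) hp
  have hroot : aeval (α ^ 5) (X ^ a + (X ^ b + 1) : (ZMod 2)[X]) = 0 := by
    simp only [map_add, map_pow, aeval_X, map_one]
    rw [← pow_mul, ← pow_mul]
    linear_combination h
  obtain ⟨h1, h2⟩ := degree_ge (by omega) (α ^ 5) (order_pow α hα hc) _ hm.ne_zero hroot
  have h3 := natDegree_le_of_dvd (minpoly.dvd (ZMod 2) _ hroot) hm.ne_zero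
  omega

/-- all cases for `j = 5` -/
theorem all_five {n k : ℕ} (hn : 6 ≤ n) (hev : n % 2 = 0) (hk : 0 < k) (hkn : k < n)
    (α : K) (hα : orderOf α = 2 ^ n - 1)
    (hc : Nat.Coprime 5 (2 ^ n - 1)) (h : α ^ n + α ^ k + 1 = 0) : HasPent n := by
  by_cases c1 : n % 5 = 0
  · by_cases c2 : k % 5 = 0
    · exact (five_zero hk hkn c1 c2 α hα hc h).elim
    · exact fam_n (r := 2) (l := n / 5) hev hk hkn le_rfl (by omega) α hα hc h
  · by_cases c2 : k % 5 = 0
    · exact fam_k (r := 2) (l := k / 5) hk hkn (by omega) (by omega) α hα hc h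
    · by_cases c3 : n % 5 = k % 5
      · exact fam_nk (r := 2) (l := (n - k) / 5) hk hkn (by omega) (by omega) α hα hc h
      · by_cases c4 : (n + 3 * k) % 5 = 0
        · exact five_B (u := (n + 3 * k) / 5) (v := (2 * n + k) / 5) hn hk hkn (by omega) (by omega)
            α hα hc h
        · by_cases c5 : (3 * n + k) % 5 = 0
          · exact five_A (u := (3 * n + k) / 5) (v := (n + 2 * k) / 5) hn hk hkn (by omega)
              (by omega) α hα hc h
          · have c6 := mod5 n k c1 c2 c3 c4 c5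
            exact five_C (u := (n + k) / 5) (v := (2 * n + 2 * k) / 5) hn hk hkn (by omega)
              (by omega) α hα hc h

/-! ### `j = 7` -/

theorem seven_B {n k u v : ℕ} (hn : 6 ≤ n) (hk : 0 < k) (hkn : k < n) (hu : 7 * u = n + 5 * k)
    (hv : 7 * v = 3 * n + k) (α : K) (hα : orderOf α = 2 ^ n - 1)
    (hc : Nat.Coprime 7 (2 ^ n - 1)) (h : α ^ n + α ^ k + 1 = 0) : HasPent n := by
  have two := two_eq_zero (K := K)
  have n2 := ne_two hn α hα h
  refine pent_of (u := k) (v := u) (w := v) hk (by omega) (by omega) hkn (by omega) (by omega)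
    (by omega) (by omega) (by omega) (α ^ 7) (order_pow α hα hc) ?_
  rw [mon n k 7 0 α (by ring : 7 * n = 7 * n + 0 * k), mon n k 0 7 α (by ring : 7 * k = 0 * n + 7 * k),
    mon n k 1 5 α (by omega : 7 * u = 1 * n + 5 * k), mon n k 3 1 α (by omega : 7 * v = 3 * n + 1 * k)]
  have hA : α ^ n = α ^ k + 1 := by linear_combination h - (α ^ k + 1) * two
  rw [hA]
  generalize α ^ k = B
  linear_combination (1*B^0 + 4*B^1 + 12*B^2 + 19*B^3 + 18*B^4 + 11*B^5 + 4*B^6 + 1*B^7) * two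

theorem seven_A {n k u v : ℕ} (hn : 6 ≤ n) (h3 : n % 3 ≠ 0) (hk : 0 < k) (hkn : k < n)
    (hu : 7 * u = 5 * n + k)
    (hv : 7 * v = n + 3 * k) (α : K) (hα : orderOf α = 2 ^ n - 1)
    (hc : Nat.Coprime 7 (2 ^ n - 1)) (h : α ^ n + α ^ k + 1 = 0) : HasPent n := by
  have two := two_eq_zero (K := K)
  have n2 := ne_four hn α hα h
  refine pent_of (u := k) (v := u) (w := v) hk (by omega) (by omega) hkn (by omega) (by omega)
    (by omega) (by omega) (by omega) (α ^ 7) (order_pow α hα hc) ?_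
  rw [mon n k 7 0 α (by ring : 7 * n = 7 * n + 0 * k), mon n k 0 7 α (by ring : 7 * k = 0 * n + 7 * k),
    mon n k 5 1 α (by omega : 7 * u = 5 * n + 1 * k), mon n k 1 3 α (by omega : 7 * v = 1 * n + 3 * k)]
  have hA : α ^ n = α ^ k + 1 := by linear_combination h - (α ^ k + 1) * two
  rw [hA]
  generalize α ^ k = B
  linear_combination (1*B^0 + 4*B^1 + 13*B^2 + 23*B^3 + 23*B^4 + 13*B^5 + 4*B^6 + 1*B^7) * two

theorem seven_C {n k u v : ℕ} (hn : 6 ≤ n) (h3 : n % 3 ≠ 0) (hk : 0 < k) (hkn : k < n)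
    (hu : 7 * u = n + k)
    (hv : 7 * v = 3 * n + 3 * k) (α : K) (hα : orderOf α = 2 ^ n - 1)
    (hc : Nat.Coprime 7 (2 ^ n - 1)) (h : α ^ n + α ^ k + 1 = 0) : HasPent n := by
  have two := two_eq_zero (K := K)
  have n2 := ne_four' hn α hα h
  refine pent_of (u := k) (v := u) (w := v) hk (by omega) (by omega) hkn (by omega) (by omega)
    (by omega) (by omega) (by omega) (α ^ 7) (order_pow α hα hc) ?_
  rw [mon n k 7 0 α (by ring : 7 * n = 7 * n + 0 * k), mon n k 0 7 α (by ring : 7 * k = 0 * n + 7 * k),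
    mon n k 1 1 α (by omega : 7 * u = 1 * n + 1 * k), mon n k 3 3 α (by omega : 7 * v = 3 * n + 3 * k)]
  have hA : α ^ n = α ^ k + 1 := by linear_combination h - (α ^ k + 1) * two
  rw [hA]
  generalize α ^ k = B
  linear_combination (1*B^0 + 4*B^1 + 11*B^2 + 18*B^3 + 19*B^4 + 12*B^5 + 4*B^6 + 1*B^7) * two

/-- a six term relation is impossible -/
theorem six_terms {n a b c d : ℕ} (hn : 2 ≤ n) (ha : a < n) (hb : b < n) (hcn : c < n)
    (hd : d < n) (β : K) (hβ : orderOf β = 2 ^ n - 1)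
    (h : β ^ n + β ^ a + β ^ b + β ^ c + β ^ d + 1 = 0) : False := by
  set p : (ZMod 2)[X] := X ^ a + (X ^ b + (X ^ c + (X ^ d + 1))) with hp
  have hpd : p.natDegree < n := by
    rw [hp]
    refine natDegree_lt (by rw [natDegree_X_pow]; omega) (natDegree_lt (by rw [natDegree_X_pow]; omega)
      (natDegree_lt (by rw [natDegree_X_pow]; omega)
      (natDegree_lt (by rw [natDegree_X_pow]; omega) (by rw [natDegree_one]; omega))))
  obtain ⟨hm, hdeg⟩ := monic_deg p (by omega) hpd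
  have hroot : aeval β (X ^ n + p) = 0 := by
    rw [hp]
    simp only [map_add, map_pow, aeval_X, map_one]
    linear_combination h
  obtain ⟨h1, hint⟩ := degree_ge (by omega) β hβ _ hm.ne_zero hroot
  have heq : minpoly (ZMod 2) β = X ^ n + p := by
    symm
    apply Polynomial.eq_of_monic_of_dvd_of_natDegree_le (minpoly.monic hint) hm
      (minpoly.dvd (ZMod 2) β hroot)
    omega
  have hirr : Irreducible (X ^ n + p) := heq ▸ minpoly.irreducible hint
  have hr1 : IsRoot (X ^ n + p) 1 := by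
    rw [IsRoot.def, hp]
    simp only [eval_add, eval_pow, eval_X, eval_one, one_pow]
    decide
  have hdeg1 := degree_eq_one_of_irreducible_of_root hirr hr1
  have h5 : (X ^ n + p).natDegree = 1 := natDegree_eq_of_degree_eq_some hdeg1
  omega

theorem seven_t3 {n k u v w : ℕ} (hn : 6 ≤ n) (hkn : k < n)
    (hu : 7 * u = n + 4 * k) (hv : 7 * v = 2 * n + k) (hw : 7 * w = 4 * n + 2 * k)
    (α : K) (hα : orderOf α = 2 ^ n - 1)
    (hc : Nat.Coprime 7 (2 ^ n - 1)) (h : α ^ n + α ^ k + 1 = 0) : False := by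
  have two := two_eq_zero (K := K)
  refine six_terms (a := k) (b := u) (c := v) (d := w) (by omega) hkn (by omega) (by omega)
    (by omega) (α ^ 7) (order_pow α hα hc) ?_
  rw [mon n k 7 0 α (by ring : 7 * n = 7 * n + 0 * k), mon n k 0 7 α (by ring : 7 * k = 0 * n + 7 * k),
    mon n k 1 4 α (by omega : 7 * u = 1 * n + 4 * k), mon n k 2 1 α (by omega : 7 * v = 2 * n + 1 * k),
    mon n k 4 2 α (by omega : 7 * w = 4 * n + 2 * k)]
  have hA : α ^ n = α ^ k + 1 := by linear_combination h - (α ^ k + 1) * two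
  rw [hA]
  generalize α ^ k = B
  linear_combination (1*B^0 + 4*B^1 + 12*B^2 + 20*B^3 + 21*B^4 + 13*B^5 + 4*B^6 + 1*B^7) * two

theorem seven_t5 {n k u v w : ℕ} (hn : 6 ≤ n) (hkn : k < n)
    (hu : 7 * u = n + 2 * k) (hv : 7 * v = 2 * n + 4 * k) (hw : 7 * w = 4 * n + k)
    (α : K) (hα : orderOf α = 2 ^ n - 1)
    (hc : Nat.Coprime 7 (2 ^ n - 1)) (h : α ^ n + α ^ k + 1 = 0) : False := by
  have two := two_eq_zero (K := K)
  refine six_terms (a := k) (b := u) (c := v) (d := w) (by omega) hkn (by omega) (by omega)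
    (by omega) (α ^ 7) (order_pow α hα hc) ?_
  rw [mon n k 7 0 α (by ring : 7 * n = 7 * n + 0 * k), mon n k 0 7 α (by ring : 7 * k = 0 * n + 7 * k),
    mon n k 1 2 α (by omega : 7 * u = 1 * n + 2 * k), mon n k 2 4 α (by omega : 7 * v = 2 * n + 4 * k),
    mon n k 4 1 α (by omega : 7 * w = 4 * n + 1 * k)]
  have hA : α ^ n = α ^ k + 1 := by linear_combination h - (α ^ k + 1) * two
  rw [hA]
  generalize α ^ k = B
  linear_combination (1*B^0 + 4*B^1 + 13*B^2 + 21*B^3 + 20*B^4 + 12*B^5 + 4*B^6 + 1*B^7) * two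

theorem all_seven {n k : ℕ} (hn : 6 ≤ n) (h3 : n % 3 ≠ 0) (hk : 0 < k) (hkn : k < n)
    (c1 : n % 7 ≠ 0) (c2 : k % 7 ≠ 0) (c3 : (n - k) % 7 ≠ 0)
    (α : K) (hα : orderOf α = 2 ^ n - 1)
    (hc : Nat.Coprime 7 (2 ^ n - 1)) (h : α ^ n + α ^ k + 1 = 0) : HasPent n := by
  by_cases d1 : (n + 5 * k) % 7 = 0
  · exact seven_B (u := (n + 5 * k) / 7) (v := (3 * n + k) / 7) hn hk hkn (by omega) (by omega)
      α hα hc h
  by_cases d2 : (5 * n + k) % 7 = 0
  · exact seven_A (u := (5 * n + k) / 7) (v := (n + 3 * k) / 7) hn h3 hk hkn (by omega) (by omega)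
      α hα hc h
  by_cases d3 : (n + k) % 7 = 0
  · exact seven_C (u := (n + k) / 7) (v := (3 * n + 3 * k) / 7) hn h3 hk hkn (by omega) (by omega)
      α hα hc h
  by_cases d4 : (n + 4 * k) % 7 = 0
  · exact (seven_t3 (u := (n + 4 * k) / 7) (v := (2 * n + k) / 7) (w := (4 * n + 2 * k) / 7)
      hn hkn (by omega) (by omega) (by omega) α hα hc h).elim
  · have d5 := mod7 n k c1 c2 (by omega) d1 d2 d3 d4
    exact (seven_t5 (u := (n + 2 * k) / 7) (v := (2 * n + 4 * k) / 7) (w := (4 * n + k) / 7)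
      hn hkn (by omega) (by omega) (by omega) α hα hc h).elim

end field

end Pool.Agent.N357.Pent
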